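import Mathlib
import Pool.Agent.N843.Em

/-!
# Central order zero in all weights for a positive natural density of quadratic twists with
# prescribed local components

`F = ℚ`. For `k ≥ 1` let `f_k` be the newform of weight `2k` and level `49` with complex
multiplication by `ℤ[ω]`, `ω² = ω - 2`: its `l`-th coefficient is half the sum of
`(x / √-7) x^(2k-1)` over the elements `x` of norm `l` of `ℤ[ω]`. For `k = 1` it is the newform of the
elliptic curve `X_0(49)`. Let `π_k` be the self-dual cuspidal automorphic representation of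
`GL₂(𝔸_ℚ)` attached to `f_k`; `L(s, π_k ⊗ χ) = L(f_k ⊗ χ, s + k - 1/2)`.

Let `D₀ ≥ 1` be squarefree with `D₀ ≡ 1 mod 8`, `S` a finite set of places of `ℚ` which contains `2`,
`7` and `∞`, with `D₀` prime to the odd primes `p` of `S`, and let `χ` be the quadratic character of
`ℚ(√D₀)` if `k` is odd and of `ℚ(√-D₀)` if `k` is even. So `χ` is any quadratic character that is
unramified at the odd primes of `S` and for `k` odd trivial at `2` and at `∞`, for `k` even at these
places the character of `ℚ(√-1)`. The quadratic characters `χ'` with `χ'_v = χ_v` for all `v ∈ S` are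
those of the `ℚ(√D)`, for `k` even the `ℚ(√-D)`, with `D ≥ 1` squarefree, `D ≡ 1 mod 8`, `p ∤ D` and
`(D / p) = (D₀ / p)` for the odd primes `p ∈ S`; the conductor is `D`, for `k` even `4 D`. For all of
them the root number of `π_k ⊗ χ'` is `1`.

Theorem: the proportion of these `D ≤ X` for which the central values `L(1/2, π_k ⊗ χ')` are not zero
**for all `k ≥ 1` at the same time** is asymptotically at least `c / 2`,
`c = ∏_{i ≥ 0} (1 - 2^{-(2i+1)}) = 0.4194…`. More precisely, all these values are not zero if the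
twist `E_D` of `X_0(49)` has `E_D(ℚ)` finite and `Ш(E_D/ℚ)[2] = 0`, and this holds exactly for the
proportion `c / 2` of the `D`.

The criterion is by an induction over the prime elements of `ℤ[ω]` dividing `D` and, for `k > 1`, by
congruences modulo `4` and `16` between Eisenstein–Kronecker series (`Pool/Agent/N843`); the density is
by the machine of helpers 973, 713, 897, 226 and 186 (`N973/ND`), extended to the residue classes by
helpers 226 and 186 (`N226/DM`, `N186/DM`).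
-/

set_option autoImplicit false

namespace Pool.Agent.Results.MP_50bb2e_nt.AllWeightsLocalConditions

open Pool.Agent.Results.MP_787500_nt.AllWeightsMultiquadraticX49 (RankZeroShaTwo)
open Filter
open scoped Classical

/-- The pairs `(a, b)` such that the norm `a² + a b + 2 b²` of `a + b ω` is `l`. -/
noncomputable def elements (l : ℕ) : Finset (ℤ × ℤ) :=
  (Finset.Icc (-(2 * l : ℤ)) (2 * l) ×ˢ Finset.Icc (-(2 * l : ℤ)) (2 * l)).filter
    fun v => v.1 ^ 2 + v.1 * v.2 + 2 * v.2 ^ 2 = l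

/-- The `l`-th coefficient of `f_k`: half the sum of the `(x / √-7) x ^ (2 k - 1)` over the elements
`x = a + b ω` of norm `l`, where `ω` is mapped to `z`; the symbol `(x / √-7)` is the Legendre symbol of
`a + 4 b` modulo `7`, as `ω = 4` modulo `√-7`. -/
noncomputable def coeff (z : ℂ) (k l : ℕ) : ℂ :=
  (∑ v ∈ elements l, (jacobiSym (v.1 + 4 * v.2) 7 : ℂ) *
    ((v.1 : ℂ) + (v.2 : ℂ) * z) ^ (2 * k - 1)) / 2

/-- The value at `n > 0` of the quadratic character of `ℚ(√d)`, for odd squarefree `d` with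
`|d| ≡ 1 mod 4`: it is the Jacobi symbol `(n / |d|)`, multiplied by the nontrivial character modulo
`4` if `d < 0`. -/
def quad (d n : ℤ) : ℤ := (if d < 0 then ZMod.χ₄ (n : ZMod 4) else 1) * jacobiSym n d.natAbs

/-- `L(f_k ⊗ χ, s)`, for the quadratic character `χ` of `ℚ(√D)` if `k` is odd and of `ℚ(√-D)` if `k` is
even, the Dirichlet series with the coefficients `χ(l) a_k(l)` for `Re s > k + 1/2`, has an entire
continuation, and it is not zero at the centre `s = k`. -/
def OrderZero (k D : ℕ) : Prop := ∀ z : ℂ, z ^ 2 = z - 2 → ∃ L : ℂ → ℂ, Differentiable ℂ L ∧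
  (∀ s : ℂ, (k : ℝ) + 1 / 2 < s.re →
    LSeriesHasSum (fun l => (quad ((-1) ^ (k + 1) * D) l : ℂ) * coeff z k l) s (L s)) ∧ L k ≠ 0

/-- The local conditions: the finite places of `S` are `2` and the odd primes of `P`, `7 ∈ P`, and
`D₀ ≡ 1 mod 8` is squarefree and prime to the primes of `P`. -/
structure Local (P : Finset ℕ) (D₀ : ℕ) : Prop where
  prime : ∀ p ∈ P, p.Prime ∧ p ≠ 2
  seven : 7 ∈ P
  squarefree : Squarefree D₀
  mod_eight : D₀ % 8 = 1
  coprime : ∀ p ∈ P, ¬ p ∣ D₀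

/-- `D ≥ 1` is squarefree and the quadratic character of `ℚ(√D)` has the same components as the one of
`ℚ(√D₀)` at the places of `S`, that is at `2`, `∞` and the primes of `P`; equivalently for `ℚ(√-D)` and
`ℚ(√-D₀)`. -/
def InA (P : Finset ℕ) (D₀ D : ℕ) : Prop := Squarefree D ∧ D % 8 = 1 ∧
  ∀ p ∈ P, ¬ p ∣ D ∧ jacobiSym D p = jacobiSym D₀ p

/-- The number of the `D ≤ X` with the local conditions and with the property `Q`. -/
noncomputable def num (P : Finset ℕ) (D₀ : ℕ) (Q : ℕ → Prop) (X : ℕ) : ℕ :=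
  ((Finset.Icc 1 X).filter fun D => InA P D₀ D ∧ Q D).card

/-- The constant `c = 0.4194…`. -/
noncomputable def c : ℝ := ∏' i : ℕ, (1 - (1 / 2 : ℝ) ^ (2 * i + 1))

section proof

open Pool.Agent.N843.Z

lemma zero_of {D : ℕ} (h : Fm D) {k : ℕ} (hk : 1 ≤ k) : OrderZero k D := by
  intro z hz
  obtain ⟨F, h1, h2, h3⟩ := Pool.Agent.N843.A.coreLZ h hz hk
  exact ⟨F, h1, fun s hs => h2 s hs, h3⟩

/-- the modulus -/
def md (P : Finset ℕ) : ℕ := 8 * ∏ p ∈ P, p

/-- the residue classes -/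
noncomputable def cl (P : Finset ℕ) (D₀ : ℕ) : Finset ℕ :=
  (Finset.range (md P)).filter fun a => a % 8 = 1 ∧ ∀ p ∈ P, ¬ p ∣ a ∧ jacobiSym a p = jacobiSym D₀ p

variable {P : Finset ℕ} {D₀ : ℕ}

lemma md_pos (h : Local P D₀) : 0 < md P :=
  Nat.mul_pos (by norm_num) (Finset.prod_pos fun p hp => (h.prime p hp).1.pos)

lemma dvd_md {p : ℕ} (hp : p ∈ P) : p ∣ md P := Dvd.dvd.mul_left (Finset.dvd_prod_of_mem _ hp) _

lemma mod_dvd {p a : ℕ} (hp : p ∈ P) : p ∣ a % md P ↔ p ∣ a := Nat.dvd_mod_iff (dvd_md hp)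

lemma mod_jac {p a : ℕ} (hp : p ∈ P) : jacobiSym ((a % md P : ℕ) : ℤ) p = jacobiSym (a : ℤ) p := by
  rw [jacobiSym.mod_left ((a % md P : ℕ) : ℤ), jacobiSym.mod_left (a : ℤ)]
  congr 1
  have h1 : ((a % md P) % p : ℕ) = a % p := Nat.mod_mod_of_dvd a (dvd_md hp)
  exact_mod_cast congrArg (Nat.cast : ℕ → ℤ) h1

lemma mod_8 {a : ℕ} : a % md P % 8 = a % 8 := Nat.mod_mod_of_dvd a (Dvd.intro _ rfl)

lemma mem_cl (h : Local P D₀) {D : ℕ} : D % md P ∈ cl P D₀ ↔
    D % 8 = 1 ∧ ∀ p ∈ P, ¬ p ∣ D ∧ jacobiSym D p = jacobiSym D₀ p := by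
  unfold cl
  rw [Finset.mem_filter, Finset.mem_range, mod_8]
  constructor
  · rintro ⟨-, h2, h3⟩
    refine ⟨h2, fun p hp => ?_⟩
    have h4 := h3 p hp
    rwa [mod_dvd hp, mod_jac hp] at h4
  · rintro ⟨h2, h3⟩
    refine ⟨Nat.mod_lt _ (md_pos h), h2, fun p hp => ?_⟩
    rw [mod_dvd hp, mod_jac hp]
    exact h3 p hp

lemma cls_of (h : Local P D₀) : Cls (md P) (cl P D₀) := by
  refine ⟨md_pos h, ?_, ⟨D₀ % md P, (mem_cl h).2 ⟨h.mod_eight, fun p hp => ⟨h.coprime p hp, rfl⟩⟩⟩,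
    fun a ha => ?_⟩
  · have h1 : 7 ∣ ∏ p ∈ P, p := Finset.dvd_prod_of_mem _ h.seven
    obtain ⟨q, hq⟩ := h1
    exact ⟨q, by unfold md; rw [hq]; ring⟩
  · obtain ⟨h1, h2, h3⟩ := Finset.mem_filter.1 ha
    refine ⟨Finset.mem_range.1 h1, ?_, by omega⟩
    unfold md
    refine Nat.Coprime.mul_right ?_ ?_
    · have h4 : Nat.Coprime a 2 := by
        rw [Nat.coprime_two_right]
        exact Nat.odd_iff.2 (by omega)
      exact Nat.Coprime.pow_right 3 h4
    · exact Nat.Coprime.prod_right fun p hp =>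
        ((Nat.Prime.coprime_iff_not_dvd (h.prime p hp).1).2 (h3 p hp).1).symm

lemma num_eq (h : Local P D₀) (Q : ℕ → Prop) (X : ℕ) :
    num P D₀ Q X = cnt (md P) (cl P D₀) Q X := by
  unfold num cnt
  congr 1
  ext D
  simp only [Finset.mem_filter, mem_cl h, InA]

lemma good_iff (h : Local P D₀) {D : ℕ} (hsq : Squarefree D) (hD : D % md P ∈ cl P D₀) :
    Pool.Agent.N818.TC.Rz (Pool.Agent.N818.TC.A D) (Pool.Agent.N818.TC.B D) ↔
      RankZeroShaTwo D := by
  obtain ⟨h4, h7⟩ := cls_mod (cls_of h) hD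
  exact (rz_long h4).symm

lemma fm_of (h : Local P D₀) {D : ℕ} (hA : InA P D₀ D) (hR : RankZeroShaTwo D) : Fm D :=
  ⟨hA.1, hA.2.1, (hA.2.2 7 h.seven).1, hR⟩

lemma dens (h : Local P D₀) :
    Tendsto (fun X : ℕ => (num P D₀ RankZeroShaTwo X : ℝ) / (num P D₀ (fun _ => True) X : ℝ))
      atTop (nhds (c / 2)) := by
  refine (rz_R dm_den (cls_of h)).congr fun X => ?_
  rw [num_eq h, num_eq h, cnt_congr (fun D h1 h2 => good_iff h h1 h2) X]

end proof

/-- **Central order zero in all weights, with prescribed local components.** -/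
theorem result :
    (∀ D : ℕ, Squarefree D → D % 8 = 1 → ¬ 7 ∣ D → RankZeroShaTwo D →
      ∀ k : ℕ, 1 ≤ k → OrderZero k D) ∧
    (∀ (P : Finset ℕ) (D₀ : ℕ), Local P D₀ →
      Tendsto (fun X : ℕ => (num P D₀ RankZeroShaTwo X : ℝ) / (num P D₀ (fun _ => True) X : ℝ))
        atTop (nhds (c / 2)) ∧
      ∀ ε : ℝ, 0 < ε → ∀ᶠ X : ℕ in atTop, 0 < num P D₀ (fun _ => True) X ∧
        (c / 2 - ε) * (num P D₀ (fun _ => True) X : ℝ) ≤
          (num P D₀ (fun D => ∀ k : ℕ, 1 ≤ k → OrderZero k D) X : ℝ)) ∧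
    0.4194 < c ∧ c < 0.4195 := by
  have hc := Pool.Agent.Y948.CQ.t_C2.2.2.2.1
  have hc' : 0.4194 < c := hc
  refine ⟨fun D h1 h2 h3 h4 k hk => zero_of ⟨h1, h2, h3, h4⟩ hk, fun P D₀ h => ⟨dens h, ?_⟩, hc,
    Pool.Agent.Y948.CQ.t_C2.2.2.2.2⟩
  intro ε hε
  have h1 : max (c / 2 - ε) 0 < c / 2 := by
    rw [max_lt_iff]
    constructor
    · linarith
    · linarith
  filter_upwards [(dens h).eventually_const_lt h1] with X hX
  have hpos : (0 : ℝ) < (num P D₀ (fun _ => True) X : ℝ) := by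
    by_contra hcon
    have h0 : (num P D₀ (fun _ => True) X : ℝ) = 0 :=
      le_antisymm (not_lt.1 hcon) (Nat.cast_nonneg _)
    rw [h0, div_zero] at hX
    exact absurd hX (not_lt.2 (le_max_right _ _))
  have h2 : c / 2 - ε < (num P D₀ RankZeroShaTwo X : ℝ) / (num P D₀ (fun _ => True) X : ℝ) :=
    lt_of_le_of_lt (le_max_left _ _) hX
  rw [lt_div_iff₀ hpos] at h2
  refine ⟨by exact_mod_cast hpos, h2.le.trans ?_⟩
  have h3 : num P D₀ RankZeroShaTwo X ≤ num P D₀ (fun D => ∀ k : ℕ, 1 ≤ k → OrderZero k D) X := by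
    unfold num
    refine Finset.card_le_card fun D hD => ?_
    obtain ⟨h5, h6, h7⟩ := Finset.mem_filter.1 hD
    exact Finset.mem_filter.2 ⟨h5, h6, fun k hk => zero_of (fm_of h h6 h7) hk⟩
  exact_mod_cast h3

end Pool.Agent.Results.MP_50bb2e_nt.AllWeightsLocalConditions
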