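import Pool.Agent.N974.L15.Lim
import Pool.Agent.N973.P15G.All
import Pool.Agent.N875.D15.Crit

/-!
# Central order zero for the quadratic twists of the newform of level `15` with prescribed local
# components

`F = ℚ`, `π` is the cuspidal representation of `GL₂` of the elliptic curve `E = X_0(15)`,
`y² = x (x + 9) (x - 16)` (conductor `15`, no complex multiplication), `χ_d` the quadratic character of
`ℚ(√d)`, `d` squarefree (`χ_1 = 1`), `N(f_χ) = cond d`, `L(s, π ⊗ χ_d) = L(E_d, s + 1/2)` with the twist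
`E_d` of `E`. The root number of `π ⊗ χ_d` is the product of the sign of `d`, of `-1` if `3` is inert in
`ℚ(√d)`, and of `-1` if `5` does not split in `ℚ(√d)`. For every `χ = χ_{d₀}` with
`ε(π ⊗ χ) = + 1` and every finite set of places of `ℚ` let `A` be the set of the `χ_d` with root number
`+ 1` and the same components as `χ` at the places of the set. Then, ordered by the conductor,
* exactly the proportion `η = ∏_{i ≥ 1} (1 - 2^{-i}) = 0.2888...` of the `χ_d` in `A` is such that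
  `E_d(ℚ)` is finite and `Ш(E_d/ℚ)` has no element of order two;
* for all these `L(1/2, π ⊗ χ_d) ≠ 0`;
* so the central order is `0` for at least the proportion `0.2887` of `A`.

Joint work of helpers 969, 970, 971, 972, 973, 974, 975, 218, 402, 575, 609, 809, 816, 855, 871, 875,
877, 886, 916, 919, 958 and others.
-/

set_option autoImplicit false

open Filter Topology

namespace Pool.Agent.Results.MP_50bb2e_nt.TwistsX15

/-- the coefficient `a` of the twist `E_d : y² = x³ + a x + b` of `y² = x (x + 9) (x - 16)` by `d` -/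
def coefA (d : ℤ) : ℤ := -12987 * d ^ 2

/-- the coefficient `b` of the twist `E_d : y² = x³ + a x + b` of `y² = x (x + 9) (x - 16)` by `d` -/
def coefB (d : ℤ) : ℤ := -263466 * d ^ 3

/-- the twist `E_d : y² = x³ - 12987 d² x - 263466 d³` -/
def E (d : ℤ) : WeierstrassCurve ℚ :=
  { a₁ := 0, a₂ := 0, a₃ := 0, a₄ := (coefA d : ℚ), a₆ := (coefB d : ℚ) }

/-- the number of the affine points of `E_d` modulo `p` -/
noncomputable def pts (d : ℤ) (p : ℕ) : ℕ := Nat.card {q : ZMod p × ZMod p //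
  q.2 ^ 2 = q.1 ^ 3 + (coefA d : ZMod p) * q.1 + (coefB d : ZMod p)}

open Classical in
/-- `F` is entire and is for `Re s > 3/2` the `L`-function of `E_d` without the Euler factors at the
primes dividing `30 d` (`a_p = p - pts d p`) -/
def IsL (d : ℤ) (F : ℂ → ℂ) : Prop :=
  Differentiable ℂ F ∧ ∀ s : ℂ, (3 : ℝ) / 2 < s.re →
    HasProd (fun p : ℕ => if p.Prime ∧ ¬ ((p : ℤ) ∣ 30 * d) then
      (1 - ((p : ℂ) - (pts d p : ℂ)) * (p : ℂ) ^ (-s) + (p : ℂ) ^ (1 - 2 * s))⁻¹ else 1) (F s)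

/-- the central order of `L(s, π ⊗ χ_d)` is zero -/
def OrderZero (d : ℤ) : Prop := ∃ F : ℂ → ℂ, IsL d F ∧ F 1 ≠ 0

/-- `E_d(ℚ)` is finite and `Ш(E_d/ℚ)` has no element of order two -/
def RankZeroShaTwo (d : ℤ) : Prop :=
  Finite (E d).toAffine.Point ∧ ∀ x : Pool.Agent.TH841.SH.D.Sha (E d), 2 • x = 0 → x = 0

/-- the conductor of `χ_d`, `d` squarefree -/
def cond (d : ℤ) : ℕ := if d % 4 = 1 then d.natAbs else 4 * d.natAbs

/-- the root number of `π ⊗ χ_d`, `d` squarefree -/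
def rootNumber (d : ℤ) : ℤ := (if d < 0 then -1 else 1) * (if d % 3 = 2 then -1 else 1) *
  (if d % 5 = 1 ∨ d % 5 = 4 then 1 else -1)

/-- `χ_d` and `χ_{d₀}` have the same components at the primes of `S` and, if `inf` holds, at the
infinite place -/
def SameLocal (inf : Prop) (S : Finset ℕ) (d₀ d : ℤ) : Prop :=
  (inf → 0 < d * d₀) ∧ ∀ (p : ℕ) [Fact p.Prime], p ∈ S → IsSquare ((d * d₀ : ℤ) : ℚ_[p])

/-- the set `𝒜` -/
def A (inf : Prop) (S : Finset ℕ) (d₀ d : ℤ) : Prop :=
  Squarefree d ∧ rootNumber d = 1 ∧ SameLocal inf S d₀ d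

/-- the number of the `d` with `cond d ≤ X` and the property `Q` -/
noncomputable def count (Q : ℤ → Prop) (X : ℕ) : ℕ := {d : ℤ | cond d ≤ X ∧ Q d}.ncard

/-- the constant `∏_{i ≥ 1} (1 - 2^{-i}) = 0.2888...` -/
noncomputable def η : ℝ := ∏' i : ℕ, (1 - (1 / 2 : ℝ) ^ (i + 1))

section proof

open Pool.Agent.N875.X15 (WS Fin2)
open Pool.Agent.N919.BS (NF Fund core)
open Pool.Agent.N809.PQ (w15 Sg15)

theorem fin2_eq (d : ℤ) : RankZeroShaTwo d ↔ Fin2 (WS d) := by
  unfold RankZeroShaTwo Pool.Agent.N875.X15.Fin2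
  refine and_congr Iff.rfl (forall_congr' fun x => ?_)
  rw [two_nsmul]
  exact Iff.rfl

theorem sg_iff (d : ℤ) (hs : Squarefree d) (h1 : d ≠ 1) (h2 : d ≠ -1) :
    Sg15 d ↔ RankZeroShaTwo d := by
  rw [fin2_eq, Pool.Agent.N875.D15.fin2S_iff_sg15 hs]
  constructor
  · exact fun h => Or.inl h
  · rintro (h | h | h)
    · exact h
    · exact absurd h h1
    · exact absurd h h2

/-- the bad primes -/
theorem bad_iff {d : ℤ} {p : ℕ} (hp : p.Prime) :
    ((p : ℤ) ∣ 2 * (-4 * (-12987 * d ^ 2) ^ 3 - 27 * (-263466 * d ^ 3) ^ 2)) ↔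
      (p : ℤ) ∣ 30 * d := by
  have hpi := Nat.prime_iff_prime_int.1 hp
  have e : (2 : ℤ) * (-4 * (-12987 * d ^ 2) ^ 3 - 27 * (-263466 * d ^ 3) ^ 2) =
      (2 ^ 9 * 3 ^ 16 * 5 ^ 4) * d ^ 6 := by
    ring
  rw [e]
  constructor
  · intro h
    rcases hpi.dvd_or_dvd h with h | h
    · rcases hpi.dvd_or_dvd h with h | h
      · rcases hpi.dvd_or_dvd h with h | h
        · exact Dvd.dvd.mul_right (dvd_trans (hpi.dvd_of_dvd_pow h) (by norm_num)) d
        · exact Dvd.dvd.mul_right (dvd_trans (hpi.dvd_of_dvd_pow h) (by norm_num)) d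
      · exact Dvd.dvd.mul_right (dvd_trans (hpi.dvd_of_dvd_pow h) (by norm_num)) d
    · exact Dvd.dvd.mul_left (hpi.dvd_of_dvd_pow h) 30
  · intro h
    refine dvd_trans h ?_
    refine ⟨2 ^ 8 * 3 ^ 15 * 5 ^ 3 * d ^ 5, by ring⟩

theorem order {d : ℤ} (hd : Squarefree d) (h : RankZeroShaTwo d) : OrderZero d := by
  obtain ⟨F, h1, h2, h3, -⟩ := Pool.Agent.N973.P15G.F.rank15 hd ((fin2_eq d).1 h)
  refine ⟨F, ⟨h1, fun s hs => ?_⟩, ?_⟩
  · have h4 := h2 s hs
    convert h4 using 1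
    funext p
    by_cases hp : p.Prime
    · by_cases hb : (p : ℤ) ∣ 30 * d
      · rw [if_neg (fun h => h.2 hb), if_neg (fun h => h.2 ((bad_iff hp).2 hb))]
      · rw [if_pos ⟨hp, hb⟩, if_pos ⟨hp, fun h => hb ((bad_iff hp).1 h)⟩]
        rfl
    · rw [if_neg (fun h => hp h.1), if_neg (fun h => hp h.1)]
  · have h5 : AnalyticAt ℂ F 1 := (h1.analyticAt 1)
    exact (h5.analyticOrderAt_eq_zero).1 h3

theorem cond_le (d : ℤ) : d.natAbs ≤ cond d := by
  unfold cond
  split_ifs <;> omega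

theorem finite_count (X : ℕ) (Q : ℤ → Prop) : {d : ℤ | cond d ≤ X ∧ Q d}.Finite := by
  refine (Finset.finite_toSet (Finset.Icc (-(X : ℤ)) X)).subset fun d hd => ?_
  have h1 := cond_le d
  have h2 := hd.1
  rw [Finset.mem_coe, Finset.mem_Icc]
  omega

theorem count_NF (Q : ℤ → Prop) (X : ℕ) : count (fun d => Squarefree d ∧ Q d) X = NF Q X := by
  classical
  unfold count Pool.Agent.N919.BS.NF
  rw [← Set.ncard_coe_finset]
  symm
  refine Set.ncard_congr (fun D _ => core D) ?_ ?_ ?_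
  · intro D hD
    rw [Finset.mem_coe, Finset.mem_filter, Finset.mem_Icc] at hD
    obtain ⟨⟨h1, h2⟩, h3, h4⟩ := hD
    rcases h3 with ⟨h3, h5⟩ | ⟨m, rfl, h3, h5⟩
    · have e : core D = D := if_pos (by omega)
      rw [e] at h4 ⊢
      refine ⟨?_, h3, h4⟩
      unfold cond
      rw [if_pos h5]
      omega
    · have e : core (4 * m) = m := by
        unfold core
        rw [if_neg (by omega)]
        omega
      rw [e] at h4 ⊢
      refine ⟨?_, h3, h4⟩
      unfold cond
      rw [if_neg (by omega)]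
      omega
  · intro D D' hD hD' h
    rw [Finset.mem_coe, Finset.mem_filter] at hD hD'
    unfold core at h
    rcases hD.2.1 with ⟨-, h5⟩ | ⟨m, rfl, -, h5⟩ <;> rcases hD'.2.1 with ⟨-, h6⟩ | ⟨m', rfl, -, h6⟩
    · rw [if_pos (by omega), if_pos (by omega)] at h
      exact h
    · rw [if_pos (by omega), if_neg (by omega)] at h
      omega
    · rw [if_neg (by omega), if_pos (by omega)] at h
      omega
    · rw [if_neg (by omega), if_neg (by omega)] at h
      omega
  · rintro d ⟨h1, h2, h3⟩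
    unfold cond at h1
    by_cases h4 : d % 4 = 1
    · rw [if_pos h4] at h1
      have e : core d = d := if_pos (by omega)
      refine ⟨d, ?_, e⟩
      rw [Finset.mem_coe, Finset.mem_filter, Finset.mem_Icc, e]
      exact ⟨by omega, Or.inl ⟨h2, h4⟩, h3⟩
    · rw [if_neg h4] at h1
      have h5 : d % 4 ≠ 0 := by
        intro h6
        have h7 := h2 2 (by omega)
        rw [Int.isUnit_iff] at h7
        omega
      have e : core (4 * d) = d := by
        unfold core
        rw [if_neg (by omega)]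
        omega
      refine ⟨4 * d, ?_, e⟩
      rw [Finset.mem_coe, Finset.mem_filter, Finset.mem_Icc, e]
      exact ⟨by omega, Or.inr ⟨d, rfl, h2, by omega⟩, h3⟩

/-- lower bounds for lower densities -/
theorem liminf_ge {f g : ℕ → ℝ} {c : ℝ} (hg : Tendsto g atTop (𝓝 c)) (hle : ∀ X, g X ≤ f X)
    (hf : ∀ X, f X ≤ 1) : c ≤ liminf f atTop := by
  rw [← hg.liminf_eq]
  refine liminf_le_liminf (Eventually.of_forall hle) hg.isBoundedUnder_ge ?_
  exact IsBoundedUnder.isCoboundedUnder_ge ⟨1, by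
    rw [eventually_map]
    exact Eventually.of_forall hf⟩

end proof

theorem result :
    (∀ d : ℤ, Squarefree d → RankZeroShaTwo d → OrderZero d) ∧
    (∀ (d₀ : ℤ) (inf : Prop) (S : Finset ℕ), Squarefree d₀ → rootNumber d₀ = 1 →
      (∀ p ∈ S, p.Prime) →
      Tendsto (fun X : ℕ => (count (fun d => A inf S d₀ d ∧ RankZeroShaTwo d) X : ℝ) /
        (count (A inf S d₀) X : ℝ)) atTop (𝓝 η) ∧
      η ≤ liminf (fun X : ℕ => (count (fun d => A inf S d₀ d ∧ OrderZero d) X : ℝ) /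
        (count (A inf S d₀) X : ℝ)) atTop) ∧
    0.2887 < η ∧ η < 0.2889 := by
  refine ⟨fun d hd h => order hd h, fun d₀ inf S hd hs hS => ?_,
    Pool.Agent.N916.GB.eta_bounds.1, Pool.Agent.N916.GB.eta_bounds.2⟩
  have h := (Pool.Agent.N974.L15.lim_Loc15 inf S hS hd hs (R := RankZeroShaTwo) sg_iff).1
  have h1 : Tendsto (fun X : ℕ => (count (fun d => A inf S d₀ d ∧ RankZeroShaTwo d) X : ℝ) /
      (count (A inf S d₀) X : ℝ)) atTop (𝓝 η) := by
    refine h.congr fun X => ?_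
    have e1 : count (fun d => A inf S d₀ d ∧ RankZeroShaTwo d) X =
        Pool.Agent.N919.BS.NF (fun d => (Pool.Agent.N809.PQ.w15 d = 1 ∧
          Pool.Agent.N855.GF.Lc17.Loc inf S d₀ d) ∧ RankZeroShaTwo d) X := by
      rw [← count_NF]
      unfold count
      congr 1
      ext d
      refine and_congr_right fun _ => ?_
      constructor
      · rintro ⟨⟨g1, g2, g3⟩, g4⟩
        exact ⟨g1, ⟨g2, g3⟩, g4⟩
      · rintro ⟨g1, ⟨g2, g3⟩, g4⟩
        exact ⟨⟨g1, g2, g3⟩, g4⟩
    have e2 : count (A inf S d₀) X = Pool.Agent.N919.BS.NF (fun d =>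
        Pool.Agent.N809.PQ.w15 d = 1 ∧ Pool.Agent.N855.GF.Lc17.Loc inf S d₀ d) X := by
      rw [← count_NF]
      rfl
    rw [e1, e2]
  refine ⟨h1, liminf_ge h1 (fun X => ?_) (fun X => ?_)⟩
  · refine div_le_div_of_nonneg_right (Nat.cast_le.2 ?_) (Nat.cast_nonneg _)
    exact Set.ncard_le_ncard (fun d hd => ⟨hd.1, hd.2.1, order hd.2.1.1 hd.2.2⟩) (finite_count X _)
  · apply div_le_one_of_le₀ _ (Nat.cast_nonneg _)
    have h4 : count (fun d => A inf S d₀ d ∧ OrderZero d) X ≤ count (A inf S d₀) X :=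
      Set.ncard_le_ncard (fun d hd => ⟨hd.1, hd.2.1⟩) (finite_count X _)
    exact_mod_cast h4

end Pool.Agent.Results.MP_50bb2e_nt.TwistsX15
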