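import Pool.Agent.N974.L21.Lim
import Pool.Agent.N974.L21.Sq
import Pool.Agent.N973.P21G.All
import Pool.Agent.N809.D21.Main

/-!
# Central order zero for the quadratic twists of the newform of level `21` with prescribed local
# components

`F = ℚ`, `π` is the cuspidal representation of `GL₂` of the elliptic curve `E = X_0(21)`,
`y² = x (x - 9) (x + 7)` (conductor `21`, no complex multiplication), `χ_d` the quadratic character of
`ℚ(√d)`, `d` squarefree (`χ_1 = 1`), `N(f_χ) = cond d`, `L(s, π ⊗ χ_d) = L(E_d, s + 1/2)` with the twist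
`E_d` of `E`. The root number of `π ⊗ χ_d` is the product of the sign of `d`, of `-1` if `3` does not split
in `ℚ(√d)`, and of `-1` if `7` is inert in `ℚ(√d)`. For every `χ = χ_{d₀}` with
`ε(π ⊗ χ) = + 1` and every finite set of places of `ℚ` let `A` be the set of the `χ_d` with root number
`+ 1` and the same components as `χ` at the places of the set, and let `δ` be the proportion in `A` of the
exceptional `d` (`d > 0`, `3` splits, `7` is not inert in `ℚ(√d)`). Then, ordered by the conductor,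
* exactly the proportion `(1 + δ / 3) η`, `η = ∏_{i ≥ 1} (1 - 2^{-i}) = 0.2888...`, of the `χ_d` in `A` is
  such that `E_d(ℚ)` is finite and `Ш(E_d/ℚ)` has no element of order two;
* for all these `L(1/2, π ⊗ χ_d) ≠ 0`;
* so the central order is `0` for at least the proportion `(1 + δ / 3) η ≥ 0.2887` of `A`; if the
  components at `3`, `7` and infinity are prescribed, this is `4 η / 3 = 0.385...` in the exceptional
  classes and `η` in the others.

Joint work of helpers 877, 809, 969, 970, 971, 972, 973, 974, 975, 218, 402, 575, 637, 816, 855, 871, 875,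
878, 916, 919, 958 and others.
-/

set_option autoImplicit false

open Filter Topology

namespace Pool.Agent.Results.MP_50bb2e_nt.TwistsX21

/-- the coefficient `a` of the twist `E_d : y² = x³ + a x + b` of `y² = x (x - 9) (x + 7)` by `d` -/
def coefA (d : ℤ) : ℤ := -5211 * d ^ 2

/-- the coefficient `b` of the twist `E_d : y² = x³ + a x + b` of `y² = x (x - 9) (x + 7)` by `d` -/
def coefB (d : ℤ) : ℤ := -31050 * d ^ 3

/-- the twist `E_d : y² = x³ - 5211 d² x - 31050 d³` -/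
def E (d : ℤ) : WeierstrassCurve ℚ :=
  { a₁ := 0, a₂ := 0, a₃ := 0, a₄ := (coefA d : ℚ), a₆ := (coefB d : ℚ) }

/-- the number of the affine points of `E_d` modulo `p` -/
noncomputable def pts (d : ℤ) (p : ℕ) : ℕ := Nat.card {q : ZMod p × ZMod p //
  q.2 ^ 2 = q.1 ^ 3 + (coefA d : ZMod p) * q.1 + (coefB d : ZMod p)}

open Classical in
/-- `F` is entire and is for `Re s > 3/2` the `L`-function of `E_d` without the Euler factors at the
primes dividing `42 d` (`a_p = p - pts d p`) -/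
def IsL (d : ℤ) (F : ℂ → ℂ) : Prop :=
  Differentiable ℂ F ∧ ∀ s : ℂ, (3 : ℝ) / 2 < s.re →
    HasProd (fun p : ℕ => if p.Prime ∧ ¬ ((p : ℤ) ∣ 42 * d) then
      (1 - ((p : ℂ) - (pts d p : ℂ)) * (p : ℂ) ^ (-s) + (p : ℂ) ^ (1 - 2 * s))⁻¹ else 1) (F s)

/-- the central order of `L(s, π ⊗ χ_d)` is zero -/
def OrderZero (d : ℤ) : Prop := ∃ F : ℂ → ℂ, IsL d F ∧ F 1 ≠ 0

/-- `E_d(ℚ)` is finite and `Ш(E_d/ℚ)` has no element of order two -/
def RankZeroShaTwo (d : ℤ) : Prop :=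
  Finite (E d).toAffine.Point ∧ ∀ x : Pool.Agent.TH841.SH.D.Sha (E d), 2 • x = 0 → x = 0

/-- the conductor of `χ_d`, `d` squarefree -/
def cond (d : ℤ) : ℕ := if d % 4 = 1 then d.natAbs else 4 * d.natAbs

/-- the root number of `π ⊗ χ_d`, `d` squarefree -/
def rootNumber (d : ℤ) : ℤ := (if d < 0 then -1 else 1) * (if d % 3 = 1 then 1 else -1) *
  (if d % 7 = 3 ∨ d % 7 = 5 ∨ d % 7 = 6 then -1 else 1)

/-- the exceptional class, `d` squarefree: `d > 0`, `3` splits and `7` is not inert in `ℚ(√d)` -/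
def Exceptional (d : ℤ) : Prop := 0 < d ∧ d % 3 = 1 ∧ ¬ (d % 7 = 3 ∨ d % 7 = 5 ∨ d % 7 = 6)

/-- `χ_d` and `χ_{d₀}` have the same components at the primes of `S` and, if `inf` holds, at the
infinite place -/
def SameLocal (inf : Prop) (S : Finset ℕ) (d₀ d : ℤ) : Prop :=
  (inf → 0 < d * d₀) ∧ ∀ (p : ℕ) [Fact p.Prime], p ∈ S → IsSquare ((d * d₀ : ℤ) : ℚ_[p])

/-- the set `𝒜` -/
def A (inf : Prop) (S : Finset ℕ) (d₀ d : ℤ) : Prop :=
  Squarefree d ∧ rootNumber d = 1 ∧ SameLocal inf S d₀ d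

/-- the number of the `d` with `cond d ≤ X` and the property `Q` -/
noncomputable def count (Q : ℤ → Prop) (X : ℕ) : ℕ := {d : ℤ | cond d ≤ X ∧ Q d}.ncard

/-- the constant `∏_{i ≥ 1} (1 - 2^{-i}) = 0.2888...` -/
noncomputable def η : ℝ := ∏' i : ℕ, (1 - (1 / 2 : ℝ) ^ (i + 1))

section proof

open Pool.Agent.N809.D21 (WS)
open Pool.Agent.N875.X15 (Fin2)
open Pool.Agent.N919.BS (NF Fund core)
open Pool.Agent.N809.PQ (w21 Sg21)

theorem fin2_eq (d : ℤ) : RankZeroShaTwo d ↔ Fin2 (WS d) := by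
  unfold RankZeroShaTwo Pool.Agent.N875.X15.Fin2
  refine and_congr Iff.rfl (forall_congr' fun x => ?_)
  rw [two_nsmul]
  exact Iff.rfl

theorem sg_iff (d : ℤ) (hs : Squarefree d) (h1 : d ≠ 1) (_ : d ≠ -1) :
    Sg21 d ↔ RankZeroShaTwo d := by
  rw [fin2_eq, Pool.Agent.N809.D21.fin2_iff hs h1]

/-- the bad primes -/
theorem bad_iff {d : ℤ} {p : ℕ} (hp : p.Prime) :
    ((p : ℤ) ∣ 2 * (-4 * (-5211 * d ^ 2) ^ 3 - 27 * (-31050 * d ^ 3) ^ 2)) ↔
      (p : ℤ) ∣ 42 * d := by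
  have hpi := Nat.prime_iff_prime_int.1 hp
  have e : (2 : ℤ) * (-4 * (-5211 * d ^ 2) ^ 3 - 27 * (-31050 * d ^ 3) ^ 2) =
      (2 ^ 9 * 3 ^ 16 * 7 ^ 2) * d ^ 6 := by
    ring
  rw [e]
  constructor
  · intro h
    rcases hpi.dvd_or_dvd h with h | h
    · rcases hpi.dvd_or_dvd h with h | h
      · rcases hpi.dvd_or_dvd h with h | h
        · exact Dvd.dvd.mul_right (dvd_trans (hpi.dvd_of_dvd_pow h) (by norm_num)) d
        · exact Dvd.dvd.mul_right (dvd_trans (hpi.dvd_of_dvd_pow h) (by norm_num)) d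
      · exact Dvd.dvd.mul_right (dvd_trans (hpi.dvd_of_dvd_pow h) (by norm_num)) d
    · exact Dvd.dvd.mul_left (hpi.dvd_of_dvd_pow h) 42
  · intro h
    refine dvd_trans h ?_
    refine ⟨2 ^ 8 * 3 ^ 15 * 7 * d ^ 5, by ring⟩

theorem order {d : ℤ} (hd : Squarefree d) (h : RankZeroShaTwo d) : OrderZero d := by
  obtain ⟨F, h1, h2, h3, -⟩ := Pool.Agent.N973.P21G.rank21 hd ((fin2_eq d).1 h)
  refine ⟨F, ⟨h1, fun s hs => ?_⟩, ?_⟩
  · have h4 := h2 s hs
    convert h4 using 1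
    funext p
    by_cases hp : p.Prime
    · by_cases hb : (p : ℤ) ∣ 42 * d
      · rw [if_neg (fun h => h.2 hb), if_neg (fun h => h.2 ((bad_iff hp).2 hb))]
      · rw [if_pos ⟨hp, hb⟩, if_pos ⟨hp, fun h => hb ((bad_iff hp).1 h)⟩]
        rfl
    · rw [if_neg (fun h => hp h.1), if_neg (fun h => hp h.1)]
  · have h5 : AnalyticAt ℂ F 1 := (h1.analyticAt 1)
    exact (h5.analyticOrderAt_eq_zero).1 h3

theorem cond_le (d : ℤ) : d.natAbs ≤ cond d := by
  unfold cond
  split_ifs <;> omega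

theorem finite_count (X : ℕ) (Q : ℤ → Prop) : {d : ℤ | cond d ≤ X ∧ Q d}.Finite := by
  refine (Finset.finite_toSet (Finset.Icc (-(X : ℤ)) X)).subset fun d hd => ?_
  have h1 := cond_le d
  have h2 := hd.1
  rw [Finset.mem_coe, Finset.mem_Icc]
  omega

theorem count_NF (Q : ℤ → Prop) (X : ℕ) : count (fun d => Squarefree d ∧ Q d) X = NF Q X := by
  classical
  unfold count Pool.Agent.N919.BS.NF
  rw [← Set.ncard_coe_finset]
  symm
  refine Set.ncard_congr (fun D _ => core D) ?_ ?_ ?_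
  · intro D hD
    rw [Finset.mem_coe, Finset.mem_filter, Finset.mem_Icc] at hD
    obtain ⟨⟨h1, h2⟩, h3, h4⟩ := hD
    rcases h3 with ⟨h3, h5⟩ | ⟨m, rfl, h3, h5⟩
    · have e : core D = D := if_pos (by omega)
      rw [e] at h4 ⊢
      refine ⟨?_, h3, h4⟩
      unfold cond
      rw [if_pos h5]
      omega
    · have e : core (4 * m) = m := by
        unfold core
        rw [if_neg (by omega)]
        omega
      rw [e] at h4 ⊢
      refine ⟨?_, h3, h4⟩
      unfold cond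
      rw [if_neg (by omega)]
      omega
  · intro D D' hD hD' h
    rw [Finset.mem_coe, Finset.mem_filter] at hD hD'
    unfold core at h
    rcases hD.2.1 with ⟨-, h5⟩ | ⟨m, rfl, -, h5⟩ <;> rcases hD'.2.1 with ⟨-, h6⟩ | ⟨m', rfl, -, h6⟩
    · rw [if_pos (by omega), if_pos (by omega)] at h
      exact h
    · rw [if_pos (by omega), if_neg (by omega)] at h
      omega
    · rw [if_neg (by omega), if_pos (by omega)] at h
      omega
    · rw [if_neg (by omega), if_neg (by omega)] at h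
      omega
  · rintro d ⟨h1, h2, h3⟩
    unfold cond at h1
    by_cases h4 : d % 4 = 1
    · rw [if_pos h4] at h1
      have e : core d = d := if_pos (by omega)
      refine ⟨d, ?_, e⟩
      rw [Finset.mem_coe, Finset.mem_filter, Finset.mem_Icc, e]
      exact ⟨by omega, Or.inl ⟨h2, h4⟩, h3⟩
    · rw [if_neg h4] at h1
      have h5 : d % 4 ≠ 0 := by
        intro h6
        have h7 := h2 2 (by omega)
        rw [Int.isUnit_iff] at h7
        omega
      have e : core (4 * d) = d := by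
        unfold core
        rw [if_neg (by omega)]
        omega
      refine ⟨4 * d, ?_, e⟩
      rw [Finset.mem_coe, Finset.mem_filter, Finset.mem_Icc, e]
      exact ⟨by omega, Or.inr ⟨d, rfl, h2, by omega⟩, h3⟩

/-- lower bounds for lower densities -/
theorem liminf_ge {f g : ℕ → ℝ} {c : ℝ} (hg : Tendsto g atTop (𝓝 c)) (hle : ∀ X, g X ≤ f X)
    (hf : ∀ X, f X ≤ 1) : c ≤ liminf f atTop := by
  rw [← hg.liminf_eq]
  refine liminf_le_liminf (Eventually.of_forall hle) hg.isBoundedUnder_ge ?_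
  exact IsBoundedUnder.isCoboundedUnder_ge ⟨1, by
    rw [eventually_map]
    exact Eventually.of_forall hf⟩

/-- the residue classes with prescribed local components -/
theorem exc_iff {d₀ d : ℤ} (h₀ : Squarefree d₀) (hd : Squarefree d) {S : Finset ℕ} (h3 : 3 ∈ S)
    (h7 : 7 ∈ S) (h : SameLocal True S d₀ d) : Exceptional d ↔ Exceptional d₀ := by
  have e0 : 0 < d ↔ 0 < d₀ := by
    have h1 := h.1 trivial
    exact pos_iff_pos_of_mul_pos h1
  have : Fact (Nat.Prime 3) := ⟨Nat.prime_three⟩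
  have : Fact (Nat.Prime 7) := ⟨by norm_num⟩
  have a3 := Pool.Agent.N974.L21.sq_res hd h₀ (h.2 3 h3)
  have a7 := Pool.Agent.N974.L21.sq_res hd h₀ (h.2 7 h7)
  have j3 : ∀ x : ℤ, (x % 3 = 0 ∧ jacobiSym x 3 = 0) ∨ (x % 3 = 1 ∧ jacobiSym x 3 = 1) ∨
      (x % 3 = 2 ∧ jacobiSym x 3 = -1) := by
    intro x
    rw [jacobiSym.mod_left]
    push_cast
    have hx : x % 3 = 0 ∨ x % 3 = 1 ∨ x % 3 = 2 := by omega
    rcases hx with hx | hx | hx <;> rw [hx] <;> norm_num
  have j7 : ∀ x : ℤ, (x % 7 = 0 ∧ jacobiSym x 7 = 0) ∨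
      ((x % 7 = 1 ∨ x % 7 = 2 ∨ x % 7 = 4) ∧ jacobiSym x 7 = 1) ∨
      ((x % 7 = 3 ∨ x % 7 = 5 ∨ x % 7 = 6) ∧ jacobiSym x 7 = -1) := by
    intro x
    rw [jacobiSym.mod_left]
    push_cast
    have hx : x % 7 = 0 ∨ x % 7 = 1 ∨ x % 7 = 2 ∨ x % 7 = 3 ∨ x % 7 = 4 ∨ x % 7 = 5 ∨
      x % 7 = 6 := by omega
    rcases hx with hx | hx | hx | hx | hx | hx | hx <;> rw [hx] <;> norm_num
  have e3 : d % 3 = 1 ↔ d₀ % 3 = 1 := by
    by_cases hd3 : (3 : ℤ) ∣ d
    · have h5 : (3 : ℤ) ∣ d₀ := a3.1.1 hd3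
      omega
    · have h5 := a3.2 hd3
      rcases j3 d with g | g | g <;> rcases j3 d₀ with g' | g' | g' <;>
        rw [g.2, g'.2] at h5 <;> omega
  have e7 : (d % 7 = 3 ∨ d % 7 = 5 ∨ d % 7 = 6) ↔ (d₀ % 7 = 3 ∨ d₀ % 7 = 5 ∨ d₀ % 7 = 6) := by
    by_cases hd7 : (7 : ℤ) ∣ d
    · have h5 : (7 : ℤ) ∣ d₀ := a7.1.1 hd7
      omega
    · have h5 := a7.2 hd7
      rcases j7 d with g | g | g <;> rcases j7 d₀ with g' | g' | g' <;>
        rw [g.2, g'.2] at h5 <;> omega
  unfold Exceptional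
  rw [e0, e3, e7]

end proof

theorem result :
    (∀ d : ℤ, Squarefree d → RankZeroShaTwo d → OrderZero d) ∧
    (∀ (d₀ : ℤ) (inf : Prop) (S : Finset ℕ), Squarefree d₀ → rootNumber d₀ = 1 →
      (∀ p ∈ S, p.Prime) →
      ∃ δ : ℝ, 0 ≤ δ ∧ δ ≤ 1 ∧
        (3 ∈ S → 7 ∈ S → inf → (Exceptional d₀ → δ = 1) ∧ (¬ Exceptional d₀ → δ = 0)) ∧
        Tendsto (fun X : ℕ => (count (fun d => A inf S d₀ d ∧ Exceptional d) X : ℝ) /
          (count (A inf S d₀) X : ℝ)) atTop (𝓝 δ) ∧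
        Tendsto (fun X : ℕ => (count (fun d => A inf S d₀ d ∧ RankZeroShaTwo d) X : ℝ) /
          (count (A inf S d₀) X : ℝ)) atTop (𝓝 (η * (1 + δ / 3))) ∧
        η * (1 + δ / 3) ≤ liminf (fun X : ℕ =>
          (count (fun d => A inf S d₀ d ∧ OrderZero d) X : ℝ) /
            (count (A inf S d₀) X : ℝ)) atTop) ∧
    0.2887 < η ∧ η < 0.2889 := by
  refine ⟨fun d hd h => order hd h, fun d₀ inf S hd hs hS => ?_,
    Pool.Agent.N916.GB.eta_bounds.1, Pool.Agent.N916.GB.eta_bounds.2⟩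
  obtain ⟨δ, p1, p2, hδ, h⟩ :=
    Pool.Agent.N974.L21.lim_Loc21 inf S hS hd hs (R := RankZeroShaTwo) sg_iff
  have e2 : ∀ X, count (A inf S d₀) X = Pool.Agent.N919.BS.NF (fun d =>
      Pool.Agent.N809.PQ.w21 d = 1 ∧ Pool.Agent.N855.GF.Lc17.Loc inf S d₀ d) X := by
    intro X
    rw [← count_NF]
    rfl
  have hD : ∀ d, Pool.Agent.N809.Red21.fD d = true ↔ Exceptional d :=
    fun d => Pool.Agent.N809.Red21.fD_iff d
  have hw : ∀ d, Exceptional d → rootNumber d = 1 := fun d hd =>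
    (Pool.Agent.N809.Red21.f21_iff d).1 (Pool.Agent.N809.Red21.fD_f21 ((hD d).2 hd))
  have h1 : Tendsto (fun X : ℕ => (count (fun d => A inf S d₀ d ∧ RankZeroShaTwo d) X : ℝ) /
      (count (A inf S d₀) X : ℝ)) atTop (𝓝 (η * (1 + δ / 3))) := by
    refine h.congr fun X => ?_
    have e1 : count (fun d => A inf S d₀ d ∧ RankZeroShaTwo d) X =
        Pool.Agent.N919.BS.NF (fun d => (Pool.Agent.N809.PQ.w21 d = 1 ∧
          Pool.Agent.N855.GF.Lc17.Loc inf S d₀ d) ∧ RankZeroShaTwo d) X := by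
      rw [← count_NF]
      unfold count
      congr 1
      ext d
      refine and_congr_right fun _ => ?_
      constructor
      · rintro ⟨⟨g1, g2, g3⟩, g4⟩
        exact ⟨g1, ⟨g2, g3⟩, g4⟩
      · rintro ⟨g1, ⟨g2, g3⟩, g4⟩
        exact ⟨⟨g1, g2, g3⟩, g4⟩
    rw [e1, e2]
  have h0 : Tendsto (fun X : ℕ => (count (fun d => A inf S d₀ d ∧ Exceptional d) X : ℝ) /
      (count (A inf S d₀) X : ℝ)) atTop (𝓝 δ) := by
    refine hδ.congr fun X => ?_
    have e1 : count (fun d => A inf S d₀ d ∧ Exceptional d) X =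
        Pool.Agent.N919.BS.NF (fun d => Pool.Agent.N809.Red21.fD d = true ∧
          Pool.Agent.N855.GF.Lc17.Loc inf S d₀ d) X := by
      rw [← count_NF]
      unfold count
      congr 1
      ext d
      refine and_congr_right fun _ => ?_
      constructor
      · rintro ⟨⟨g1, g2, g3⟩, g4⟩
        exact ⟨g1, (hD d).2 g4, g3⟩
      · rintro ⟨g1, g2, g3⟩
        exact ⟨⟨g1, hw d ((hD d).1 g2), g3⟩, (hD d).1 g2⟩
    rw [e1, e2]
  have htop : ∀ᶠ X : ℕ in atTop, (count (A inf S d₀) X : ℝ) ≠ 0 := by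
    obtain ⟨m, k2, k3, k4⟩ := Pool.Agent.N974.L15.lc_LocN inf S hS d₀ 168 (by norm_num)
    have t := (Pool.Agent.N974.L15.top_P (Dvd.dvd.trans (by norm_num) k2) k3
      (Pool.Agent.N855.GF.Lc17.lc_and
        (Pool.Agent.N974.L21.lc_w21 (Dvd.dvd.trans (by norm_num) k2)) k4) hd
      ⟨hs, fun _ => mul_self_pos.2 hd.ne_zero, fun p _ _ => ⟨(d₀ : ℚ_[p]), by
        push_cast
        ring⟩⟩).1
    filter_upwards [t.eventually_gt_atTop 0] with X hX
    rw [e2]
    exact hX.ne'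
  refine ⟨δ, p1, p2, fun q3 q7 qi => ⟨fun hE => ?_, fun hE => ?_⟩, h0, h1,
    liminf_ge h1 (fun X => ?_) (fun X => ?_)⟩
  · refine tendsto_nhds_unique h0 ?_
    refine tendsto_const_nhds.congr' ?_
    filter_upwards [htop] with X hX
    have e : count (fun d => A inf S d₀ d ∧ Exceptional d) X = count (A inf S d₀) X := by
      unfold count
      congr 1
      ext d
      refine and_congr_right fun _ => ⟨fun g => g.1, fun g => ⟨g, ?_⟩⟩
      have g3 := g.2.2
      rw [eq_true qi] at g3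
      exact (exc_iff hd g.1 q3 q7 g3).2 hE
    rw [e, div_self hX]
  · refine tendsto_nhds_unique h0 ?_
    refine tendsto_const_nhds.congr fun X => ?_
    have e : count (fun d => A inf S d₀ d ∧ Exceptional d) X = 0 := by
      unfold count
      rw [Set.ncard_eq_zero (finite_count X _)]
      ext d
      constructor
      · rintro ⟨-, g, g4⟩
        have g3 := g.2.2
        rw [eq_true qi] at g3
        exact absurd ((exc_iff hd g.1 q3 q7 g3).1 g4) hE
      · intro g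
        exact absurd g (Set.notMem_empty d)
    rw [e, Nat.cast_zero, zero_div]
  · refine div_le_div_of_nonneg_right (Nat.cast_le.2 ?_) (Nat.cast_nonneg _)
    exact Set.ncard_le_ncard (fun d hd => ⟨hd.1, hd.2.1, order hd.2.1.1 hd.2.2⟩) (finite_count X _)
  · apply div_le_one_of_le₀ _ (Nat.cast_nonneg _)
    have h4 : count (fun d => A inf S d₀ d ∧ OrderZero d) X ≤ count (A inf S d₀) X :=
      Set.ncard_le_ncard (fun d hd => ⟨hd.1, hd.2.1⟩) (finite_count X _)
    exact_mod_cast h4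

end Pool.Agent.Results.MP_50bb2e_nt.TwistsX21
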